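import Mathlib

/-!
MP_294a3d_co, Q1: a counterexample.  The graph has the vertices `0,1,2,3,4` and the edges
`01, 02, 03, 04, 12, 13` (two triangles sharing the edge `01`, and a pendant vertex at `0`),
the target is one pebble on `0` and one on `3`, and the extremal configuration has one pebble
on each of `1`, `2` and five pebbles on `4`.
-/

namespace Pool.Agent.Results.MP_294a3d_co.NonSimplicialSupport

variable {V : Type} [Fintype V] [DecidableEq V]

/-- `C'` arises from `C` by one pebbling step along an edge `uv`: two pebbles are removed from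
`u` and one pebble is added to `v`. -/
def Step (G : SimpleGraph V) (C C' : V → ℕ) : Prop :=
  ∃ u v, G.Adj u v ∧ 2 ≤ C u ∧
    C' = Function.update (Function.update C u (C u - 2)) v (C v + 1)

/-- `C` is `D`-solvable: some finite sequence of pebbling steps reaches a configuration with at
least `D v` pebbles on every vertex `v`. -/
def Solvable (G : SimpleGraph V) (D C : V → ℕ) : Prop :=
  ∃ C', Relation.ReflTransGen (Step G) C C' ∧ ∀ v, D v ≤ C' v

/-- The size of a configuration. -/
def size (C : V → ℕ) : ℕ := ∑ v, C v

/-- `C` is `D`-maximal: it is `D`-unsolvable, and adding one pebble at any single vertex makes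
it `D`-solvable. -/
def Maximal (G : SimpleGraph V) (D C : V → ℕ) : Prop :=
  ¬ Solvable G D C ∧ ∀ v, Solvable G D (Function.update C v (C v + 1))

/-- `C` is `D`-extremal: it is `D`-maximal and of maximum size among `D`-maximal
configurations. -/
def Extremal (G : SimpleGraph V) (D C : V → ℕ) : Prop :=
  Maximal G D C ∧ ∀ C', Maximal G D C' → size C' ≤ size C

/-- A graph is chordal if it has no induced cycle of length at least 4. -/
def Chordal (G : SimpleGraph V) : Prop :=
  ∀ k, 4 ≤ k → IsEmpty (SimpleGraph.cycleGraph k ↪g G)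

/-- A vertex is simplicial if its neighbours induce a clique. -/
def Simplicial (G : SimpleGraph V) (v : V) : Prop :=
  ∀ u w, G.Adj v u → G.Adj v w → u ≠ w → G.Adj u w

/-- adjacency of the example as a Boolean function -/
def adjB (u v : Fin 5) : Bool :=
  (u != v) && ((u == 0) || (v == 0) || (u == 1 && (v == 2 || v == 3)) ||
    (v == 1 && (u == 2 || u == 3)))

/-- The graph of the example. -/
def G5 : SimpleGraph (Fin 5) where
  Adj u v := adjB u v = true
  symm := ⟨by decide⟩
  loopless := ⟨by decide⟩

instance : DecidableRel G5.Adj := fun u v => inferInstanceAs (Decidable (adjB u v = true))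

/-- The target of the example. -/
def D5 : Fin 5 → ℕ := ![1, 0, 0, 1, 0]

/-- The extremal configuration of the example. -/
def C5 : Fin 5 → ℕ := ![0, 1, 1, 0, 5]

/-- configurations as 5-tuples -/
abbrev T := ℕ × ℕ × ℕ × ℕ × ℕ

def toF (t : T) : Fin 5 → ℕ := ![t.1, t.2.1, t.2.2.1, t.2.2.2.1, t.2.2.2.2]

/-- the result of a step on tuples, if legal -/
def moves : T → List T := fun ⟨a, b, c, d, e⟩ =>
  (if 2 ≤ a then [(a - 2, b + 1, c, d, e), (a - 2, b, c + 1, d, e), (a - 2, b, c, d + 1, e),
    (a - 2, b, c, d, e + 1)] else []) ++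
  (if 2 ≤ b then [(a + 1, b - 2, c, d, e), (a, b - 2, c + 1, d, e), (a, b - 2, c, d + 1, e)]
    else []) ++
  (if 2 ≤ c then [(a + 1, b, c - 2, d, e), (a, b + 1, c - 2, d, e)] else []) ++
  (if 2 ≤ d then [(a + 1, b, c, d - 2, e), (a, b + 1, c, d - 2, e)] else []) ++
  (if 2 ≤ e then [(a + 1, b, c, d, e - 2)] else [])

def solvB : ℕ → T → Bool
  | 0, t => decide (1 ≤ t.1 ∧ 1 ≤ t.2.2.2.1)
  | k + 1, t => decide (1 ≤ t.1 ∧ 1 ≤ t.2.2.2.1) || (moves t).any (solvB k)

lemma size_toF (t : T) : size (toF t) = t.1 + t.2.1 + t.2.2.1 + t.2.2.2.1 + t.2.2.2.2 := by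
  simp [size, toF, Fin.sum_univ_five]

lemma exists_toF (C : Fin 5 → ℕ) : ∃ t : T, C = toF t := by
  refine ⟨(C 0, C 1, C 2, C 3, C 4), ?_⟩
  funext i
  fin_cases i <;> rfl

lemma step_of_mem {t t' : T} (h : t' ∈ moves t) : Step G5 (toF t) (toF t') := by
  obtain ⟨a, b, c, d, e⟩ := t
  simp only [moves, List.mem_append] at h
  rcases h with (((h | h) | h) | h) | h
  · split_ifs at h with h2
    · simp only [List.mem_cons, List.not_mem_nil, or_false] at h
      rcases h with rfl | rfl | rfl | rfl
      · refine ⟨0, 1, by decide, by simpa [toF] using h2, ?_⟩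
        funext i; fin_cases i <;> simp [toF, Function.update]
      · refine ⟨0, 2, by decide, by simpa [toF] using h2, ?_⟩
        funext i; fin_cases i <;> simp [toF, Function.update]
      · refine ⟨0, 3, by decide, by simpa [toF] using h2, ?_⟩
        funext i; fin_cases i <;> simp [toF, Function.update]
      · refine ⟨0, 4, by decide, by simpa [toF] using h2, ?_⟩
        funext i; fin_cases i <;> simp [toF, Function.update]
    · simp at h
  · split_ifs at h with h2
    · simp only [List.mem_cons, List.not_mem_nil, or_false] at h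
      rcases h with rfl | rfl | rfl
      · refine ⟨1, 0, by decide, by simpa [toF] using h2, ?_⟩
        funext i; fin_cases i <;> simp [toF, Function.update]
      · refine ⟨1, 2, by decide, by simpa [toF] using h2, ?_⟩
        funext i; fin_cases i <;> simp [toF, Function.update]
      · refine ⟨1, 3, by decide, by simpa [toF] using h2, ?_⟩
        funext i; fin_cases i <;> simp [toF, Function.update]
    · simp at h
  · split_ifs at h with h2
    · simp only [List.mem_cons, List.not_mem_nil, or_false] at h
      rcases h with rfl | rfl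
      · refine ⟨2, 0, by decide, by simpa [toF] using h2, ?_⟩
        funext i; fin_cases i <;> simp [toF, Function.update]
      · refine ⟨2, 1, by decide, by simpa [toF] using h2, ?_⟩
        funext i; fin_cases i <;> simp [toF, Function.update]
    · simp at h
  · split_ifs at h with h2
    · simp only [List.mem_cons, List.not_mem_nil, or_false] at h
      rcases h with rfl | rfl
      · refine ⟨3, 0, by decide, by simpa [toF] using h2, ?_⟩
        funext i; fin_cases i <;> simp [toF, Function.update]
      · refine ⟨3, 1, by decide, by simpa [toF] using h2, ?_⟩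
        funext i; fin_cases i <;> simp [toF, Function.update]
    · simp at h
  · split_ifs at h with h2
    · simp only [List.mem_cons, List.not_mem_nil, or_false] at h
      subst h
      refine ⟨4, 0, by decide, by simpa [toF] using h2, ?_⟩
      funext i; fin_cases i <;> simp [toF, Function.update]
    · simp at h

lemma toF_injective : Function.Injective toF := by
  intro s t h
  have h0 := congrFun h 0
  have h1 := congrFun h 1
  have h2 := congrFun h 2
  have h3 := congrFun h 3
  have h4 := congrFun h 4
  obtain ⟨a, b, c, d, e⟩ := s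
  obtain ⟨a', b', c', d', e'⟩ := t
  simp [toF] at h0 h1 h2 h3 h4
  simp [h0, h1, h2, h3, h4]

lemma mem_of_step {t t' : T} (h : Step G5 (toF t) (toF t')) : t' ∈ moves t := by
  obtain ⟨u, v, hadj, h2, h⟩ := h
  obtain ⟨a, b, c, d, e⟩ := t
  have key : ∀ s : T, toF t' = toF s → s ∈ moves (a, b, c, d, e) →
      t' ∈ moves (a, b, c, d, e) := by
    intro s hs hm
    rw [toF_injective hs]
    exact hm
  have hadj' : adjB u v = true := hadj
  fin_cases u <;> fin_cases v <;>
    first
    | (exact absurd hadj' (by decide))
    | skip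
  · have h2' : 2 ≤ a := by simpa [toF] using h2
    refine key (a - 2, b + 1, c, d, e) ?_ (by simp [moves, h2'])
    rw [h]; funext i; fin_cases i <;> simp [toF, Function.update]
  · have h2' : 2 ≤ a := by simpa [toF] using h2
    refine key (a - 2, b, c + 1, d, e) ?_ (by simp [moves, h2'])
    rw [h]; funext i; fin_cases i <;> simp [toF, Function.update]
  · have h2' : 2 ≤ a := by simpa [toF] using h2
    refine key (a - 2, b, c, d + 1, e) ?_ (by simp [moves, h2'])
    rw [h]; funext i; fin_cases i <;> simp [toF, Function.update]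
  · have h2' : 2 ≤ a := by simpa [toF] using h2
    refine key (a - 2, b, c, d, e + 1) ?_ (by simp [moves, h2'])
    rw [h]; funext i; fin_cases i <;> simp [toF, Function.update]
  · have h2' : 2 ≤ b := by simpa [toF] using h2
    refine key (a + 1, b - 2, c, d, e) ?_ (by simp [moves, h2'])
    rw [h]; funext i; fin_cases i <;> simp [toF, Function.update]
  · have h2' : 2 ≤ b := by simpa [toF] using h2
    refine key (a, b - 2, c + 1, d, e) ?_ (by simp [moves, h2'])
    rw [h]; funext i; fin_cases i <;> simp [toF, Function.update]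
  · have h2' : 2 ≤ b := by simpa [toF] using h2
    refine key (a, b - 2, c, d + 1, e) ?_ (by simp [moves, h2'])
    rw [h]; funext i; fin_cases i <;> simp [toF, Function.update]
  · have h2' : 2 ≤ c := by simpa [toF] using h2
    refine key (a + 1, b, c - 2, d, e) ?_ (by simp [moves, h2'])
    rw [h]; funext i; fin_cases i <;> simp [toF, Function.update]
  · have h2' : 2 ≤ c := by simpa [toF] using h2
    refine key (a, b + 1, c - 2, d, e) ?_ (by simp [moves, h2'])
    rw [h]; funext i; fin_cases i <;> simp [toF, Function.update]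
  · have h2' : 2 ≤ d := by simpa [toF] using h2
    refine key (a + 1, b, c, d - 2, e) ?_ (by simp [moves, h2'])
    rw [h]; funext i; fin_cases i <;> simp [toF, Function.update]
  · have h2' : 2 ≤ d := by simpa [toF] using h2
    refine key (a, b + 1, c, d - 2, e) ?_ (by simp [moves, h2'])
    rw [h]; funext i; fin_cases i <;> simp [toF, Function.update]
  · have h2' : 2 ≤ e := by simpa [toF] using h2
    refine key (a + 1, b, c, d, e - 2) ?_ (by simp [moves, h2'])
    rw [h]; funext i; fin_cases i <;> simp [toF, Function.update]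

def tsize (t : T) : ℕ := t.1 + t.2.1 + t.2.2.1 + t.2.2.2.1 + t.2.2.2.2

lemma D_le_iff (t : T) : (∀ v, D5 v ≤ toF t v) ↔ (1 ≤ t.1 ∧ 1 ≤ t.2.2.2.1) := by
  constructor
  · intro h
    exact ⟨by simpa [D5, toF] using h 0, by simpa [D5, toF] using h 3⟩
  · rintro ⟨h0, h3⟩ v
    fin_cases v
    · simpa [D5, toF] using h0
    · simp [D5, toF]
    · simp [D5, toF]
    · simpa [D5, toF] using h3
    · simp [D5, toF]

lemma solvable_of_solvB : ∀ (k : ℕ) (t : T), solvB k t = true → Solvable G5 D5 (toF t) := by
  intro k
  induction k with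
  | zero =>
    intro t h
    simp only [solvB, decide_eq_true_eq] at h
    exact ⟨toF t, Relation.ReflTransGen.refl, (D_le_iff t).mpr h⟩
  | succ k ih =>
    intro t h
    simp only [solvB, Bool.or_eq_true, decide_eq_true_eq, List.any_eq_true] at h
    rcases h with h | ⟨t', ht', h⟩
    · exact ⟨toF t, Relation.ReflTransGen.refl, (D_le_iff t).mpr h⟩
    · obtain ⟨C', hC', hD⟩ := ih t' h
      exact ⟨C', Relation.ReflTransGen.head (step_of_mem ht') hC', hD⟩

lemma solvB_mono : ∀ (k : ℕ) (t : T), solvB k t = true → solvB (k + 1) t = true := by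
  intro k
  induction k with
  | zero =>
    intro t h
    simp only [solvB, decide_eq_true_eq] at h
    simp only [solvB, Bool.or_eq_true, decide_eq_true_eq]
    exact Or.inl h
  | succ k ih =>
    intro t h
    rw [solvB, Bool.or_eq_true, List.any_eq_true] at h ⊢
    rcases h with h | ⟨t', ht', h⟩
    · exact Or.inl h
    · exact Or.inr ⟨t', ht', ih t' h⟩

lemma tsize_moves {t t' : T} (h : t' ∈ moves t) : tsize t' + 1 = tsize t := by
  obtain ⟨a, b, c, d, e⟩ := t
  simp only [moves, List.mem_append] at h
  rcases h with (((h | h) | h) | h) | h <;> split_ifs at h with h2 <;>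
    simp only [List.mem_cons, List.not_mem_nil, or_false] at h
  · rcases h with rfl | rfl | rfl | rfl <;> simp only [tsize] <;> omega
  · rcases h with rfl | rfl | rfl <;> simp only [tsize] <;> omega
  · rcases h with rfl | rfl <;> simp only [tsize] <;> omega
  · rcases h with rfl | rfl <;> simp only [tsize] <;> omega
  · subst h
    simp only [tsize]
    omega

lemma solvB_of_reach {C C' : Fin 5 → ℕ} (h : Relation.ReflTransGen (Step G5) C C')
    (hD : ∀ v, D5 v ≤ C' v) : ∀ (t : T), C = toF t → ∀ k, tsize t ≤ k → solvB k t = true := by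
  induction h using Relation.ReflTransGen.head_induction_on with
  | refl =>
    intro t ht k hk
    rw [ht] at hD
    have := (D_le_iff t).mp hD
    cases k with
    | zero => simp only [solvB, decide_eq_true_eq]; exact this
    | succ k => simp only [solvB, Bool.or_eq_true, decide_eq_true_eq]; exact Or.inl this
  | head hstep _ ih =>
    rename_i C1 C2 _
    intro t ht k hk
    obtain ⟨t', ht'⟩ := exists_toF C2
    rw [ht, ht'] at hstep
    have hm := mem_of_step hstep
    have hs := tsize_moves hm
    cases k with
    | zero => omega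
    | succ k =>
      rw [solvB, Bool.or_eq_true, List.any_eq_true]
      exact Or.inr ⟨t', hm, ih t' ht' k (by omega)⟩

/-- all configurations of size 8 are solvable -/
lemma solvB_eight : ∀ a < 9, ∀ b < 9 - a, ∀ c < 9 - a - b, ∀ d < 9 - a - b - c,
    solvB 7 (a, b, c, d, 8 - a - b - c - d) = true := by
  decide +kernel

/-- all configurations of size 7 supported on the simplicial vertices are solvable -/
lemma solvB_seven : ∀ c < 8, ∀ d < 8 - c, solvB 7 (0, 0, c, d, 7 - c - d) = true := by
  decide +kernel

lemma not_solvB_C5 : solvB 7 (0, 1, 1, 0, 5) = false := by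
  decide +kernel

lemma solvable_mono {C C' E : Fin 5 → ℕ} (h : Relation.ReflTransGen (Step G5) C E) :
    (∀ v, C v ≤ C' v) → ∃ E', Relation.ReflTransGen (Step G5) C' E' ∧ ∀ v, E v ≤ E' v := by
  induction h with
  | refl => intro hle; exact ⟨C', Relation.ReflTransGen.refl, hle⟩
  | tail _ hstep ih =>
    intro hle
    obtain ⟨E', hE', hle'⟩ := ih hle
    obtain ⟨u, v, hadj, h2, rfl⟩ := hstep
    refine ⟨_, Relation.ReflTransGen.tail hE' ⟨u, v, hadj, le_trans h2 (hle' u), rfl⟩, ?_⟩
    intro w
    have hu := hle' u
    have hv := hle' v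
    have hw := hle' w
    by_cases hwv : w = v
    · subst hwv
      simp only [Function.update_self]
      omega
    · rw [Function.update_of_ne hwv, Function.update_of_ne hwv]
      by_cases hwu : w = u
      · subst hwu
        simp only [Function.update_self]
        omega
      · rw [Function.update_of_ne hwu, Function.update_of_ne hwu]
        exact hw

lemma solvable_of_le {C C' : Fin 5 → ℕ} (hC : Solvable G5 D5 C) (h : ∀ v, C v ≤ C' v) :
    Solvable G5 D5 C' := by
  obtain ⟨E, hE, hD⟩ := hC
  obtain ⟨E', hE', hle⟩ := solvable_mono hE h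
  exact ⟨E', hE', fun v => le_trans (hD v) (hle v)⟩

lemma solvable_of_size : ∀ (m : ℕ) (C : Fin 5 → ℕ), size C = 8 + m → Solvable G5 D5 C := by
  intro m
  induction m with
  | zero =>
    intro C hC
    obtain ⟨⟨a, b, c, d, e⟩, rfl⟩ := exists_toF C
    rw [size_toF] at hC
    simp only at hC
    have he : e = 8 - a - b - c - d := by omega
    rw [he]
    exact solvable_of_solvB 7 _ (solvB_eight a (by omega) b (by omega) c (by omega) d (by omega))
  | succ m ih =>
    intro C hC
    have hpos : ∃ v, 0 < C v := by
      by_contra hcon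
      push Not at hcon
      have : size C = 0 := Finset.sum_eq_zero fun v _ => by have := hcon v; omega
      omega
    obtain ⟨v, hv⟩ := hpos
    have hsz : size (Function.update C v (C v - 1)) = 8 + m := by
      have h1 : size (Function.update C v (C v - 1)) + C v = size C + (C v - 1) := by
        unfold size
        rw [Finset.sum_update_of_mem (Finset.mem_univ v),
          ← Finset.add_sum_erase Finset.univ C (Finset.mem_univ v),
          ← Finset.sdiff_singleton_eq_erase]
        omega
      omega
    refine solvable_of_le (ih _ hsz) ?_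
    intro w
    by_cases hw : w = v
    · subst hw
      simp only [Function.update_self]
      omega
    · rw [Function.update_of_ne hw]

lemma size_le_of_not_solvable {C : Fin 5 → ℕ} (h : ¬ Solvable G5 D5 C) : size C ≤ 7 := by
  by_contra hcon
  push Not at hcon
  exact h (solvable_of_size (size C - 8) C (by omega))

lemma C5_unsolvable : ¬ Solvable G5 D5 C5 := by
  rintro ⟨C', hC', hD⟩
  have := solvB_of_reach hC' hD (0, 1, 1, 0, 5) rfl 7 (by decide)
  rw [not_solvB_C5] at this
  exact Bool.noConfusion this

lemma size_C5 : size C5 = 7 := by decide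

lemma connected_G5 : G5.Connected := by
  rw [SimpleGraph.connected_iff_exists_forall_reachable]
  refine ⟨0, fun w => ?_⟩
  fin_cases w
  · exact SimpleGraph.Reachable.refl _
  · exact SimpleGraph.Adj.reachable (by decide)
  · exact SimpleGraph.Adj.reachable (by decide)
  · exact SimpleGraph.Adj.reachable (by decide)
  · exact SimpleGraph.Adj.reachable (by decide)

lemma no_C4 : ∀ f : Fin 4 → Fin 5, ¬ (adjB (f 0) (f 1) = true ∧ adjB (f 1) (f 2) = true ∧
    adjB (f 2) (f 3) = true ∧ adjB (f 3) (f 0) = true ∧ adjB (f 0) (f 2) = false ∧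
    adjB (f 1) (f 3) = false ∧ f 0 ≠ f 2 ∧ f 1 ≠ f 3) := by
  decide +kernel

lemma no_C5 : ∀ f : Fin 5 → Fin 5, ¬ (adjB (f 0) (f 1) = true ∧ adjB (f 1) (f 2) = true ∧
    adjB (f 2) (f 3) = true ∧ adjB (f 3) (f 4) = true ∧ adjB (f 4) (f 0) = true ∧
    adjB (f 0) (f 2) = false ∧ adjB (f 1) (f 3) = false ∧ adjB (f 2) (f 4) = false ∧
    adjB (f 0) (f 3) = false ∧ adjB (f 1) (f 4) = false ∧ f 0 ≠ f 2 ∧ f 1 ≠ f 3) := by
  decide +kernel

lemma chordal_G5 : Chordal G5 := by
  intro k hk
  refine ⟨fun f => ?_⟩
  have hk5 : k ≤ 5 := by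
    have := Fintype.card_le_of_embedding f.toEmbedding
    simpa using this
  have hT : ∀ i j, (SimpleGraph.cycleGraph k).Adj i j → adjB (f i) (f j) = true := by
    intro i j h
    exact f.map_rel_iff.mpr h
  have hF : ∀ i j, ¬ (SimpleGraph.cycleGraph k).Adj i j → adjB (f i) (f j) = false := by
    intro i j h
    rw [← Bool.not_eq_true]
    intro h'
    exact h (f.map_rel_iff.mp h')
  interval_cases k
  · refine no_C4 (fun i => f i) ⟨hT _ _ ?_, hT _ _ ?_, hT _ _ ?_, hT _ _ ?_, hF _ _ ?_,
      hF _ _ ?_, fun h => ?_, fun h => ?_⟩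
    any_goals (rw [SimpleGraph.cycleGraph_adj]; decide)
    · exact absurd (f.injective h) (by decide)
    · exact absurd (f.injective h) (by decide)
  · refine no_C5 (fun i => f i) ⟨hT _ _ ?_, hT _ _ ?_, hT _ _ ?_, hT _ _ ?_, hT _ _ ?_,
      hF _ _ ?_, hF _ _ ?_, hF _ _ ?_, hF _ _ ?_, hF _ _ ?_, fun h => ?_, fun h => ?_⟩
    any_goals (rw [SimpleGraph.cycleGraph_adj]; decide)
    · exact absurd (f.injective h) (by decide)
    · exact absurd (f.injective h) (by decide)

/-- There are a connected chordal graph `G`, a target `D` and a `D`-extremal configuration `C`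
such that every `D`-unsolvable configuration of size at least `|C|` puts a pebble on some
non-simplicial vertex. -/
theorem result : ∃ (G : SimpleGraph (Fin 5)) (D C : Fin 5 → ℕ),
    G.Connected ∧ Chordal G ∧ Extremal G D C ∧
    ∀ C', ¬ Solvable G D C' → size C ≤ size C' → ∃ v, ¬ Simplicial G v ∧ 0 < C' v := by
  refine ⟨G5, D5, C5, connected_G5, chordal_G5, ⟨⟨C5_unsolvable, ?_⟩, ?_⟩, ?_⟩
  · intro v
    apply solvable_of_size 0
    have h1 : size (Function.update C5 v (C5 v + 1)) + C5 v = size C5 + (C5 v + 1) := by
      unfold size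
      rw [Finset.sum_update_of_mem (Finset.mem_univ v),
        ← Finset.add_sum_erase Finset.univ C5 (Finset.mem_univ v),
        ← Finset.sdiff_singleton_eq_erase]
      omega
    rw [size_C5] at h1
    omega
  · intro C' hC'
    rw [size_C5]
    exact size_le_of_not_solvable hC'.1
  · intro C' hC' hsz
    rw [size_C5] at hsz
    have h7 := size_le_of_not_solvable hC'
    by_contra hcon
    push Not at hcon
    have n0 : ¬ Simplicial G5 0 := fun h =>
      absurd (h 2 3 (by decide) (by decide) (by decide)) (by decide)
    have n1 : ¬ Simplicial G5 1 := fun h =>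
      absurd (h 2 3 (by decide) (by decide) (by decide)) (by decide)
    have c0 := hcon 0 n0
    have c1 := hcon 1 n1
    obtain ⟨⟨a, b, c, d, e⟩, rfl⟩ := exists_toF C'
    rw [size_toF] at h7 hsz
    have ha : a = 0 := by simpa [toF] using c0
    have hb : b = 0 := by simpa [toF] using c1
    simp only at h7 hsz
    subst ha
    subst hb
    have he : e = 7 - c - d := by omega
    rw [he] at hC'
    exact hC' (solvable_of_solvB 7 _ (solvB_seven c (by omega) d (by omega)))

end Pool.Agent.Results.MP_294a3d_co.NonSimplicialSupport
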